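import Mathlib

namespace Pool.Agent.Results.MP_e09b14_ag.WeightedHypersurface

open MvPolynomial

variable {N : ℕ}

/-- The weighted scaling `t · x = (t ^ a_i x_i)_i` of `ℂ ^ N`. -/
def scale (a : Fin N → ℕ) (t : ℂ) (x : Fin N → ℂ) : Fin N → ℂ := fun i => t ^ a i * x i

/-- The value `dg_x(v) = ∑ i, (∂g/∂x_i)(x) v_i` of the differential of `g` at `x` on `v`. -/
noncomputable def diffAt (g : MvPolynomial (Fin N) ℂ) (x v : Fin N → ℂ) : ℂ :=
  ∑ i, eval x (pderiv i g) * v i

/-- `f` is a weighted homogeneous equation of degree `d > 0` with respect to the positive weights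
`a`, whose punctured affine cone `{x ≠ 0, f x = 0}` is nonsingular and carries a free action of
`ℂˣ` by `scale`; the quotient `X = {f = 0} ⊂ ℙ(a)` is then a smooth projective variety of
dimension `N - 2` with the line bundle `O_X(1)`. -/
structure IsSmoothHypersurface (a : Fin N → ℕ) (d : ℕ) (f : MvPolynomial (Fin N) ℂ) : Prop where
  weight_pos : ∀ i, 0 < a i
  degree_pos : 0 < d
  homogeneous : IsWeightedHomogeneous a f d
  nonsingular : ∀ x : Fin N → ℂ, x ≠ 0 → eval x f = 0 → ∃ i, eval x (pderiv i f) ≠ 0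
  free : ∀ x : Fin N → ℂ, x ≠ 0 → eval x f = 0 → ∀ t : ℂ, scale a t x = x → t = 1

/-- `O_X(k)` is very ample on `X = {f = 0} ⊂ ℙ(a)`: the weighted homogeneous forms of degree `k`
have no common zero on `X`, separate the points of `X`, and separate tangent vectors of `X`
(a tangent vector of `X` at `[x]` is a vector `v` with `df_x(v) = 0` modulo the multiples of the
Euler vector `(a_i x_i)_i`, which spans the tangent line of the orbit of `x`). -/
structure VeryAmple (a : Fin N → ℕ) (f : MvPolynomial (Fin N) ℂ) (k : ℕ) : Prop where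
  base_point_free : ∀ x : Fin N → ℂ, x ≠ 0 → eval x f = 0 →
    ∃ g : MvPolynomial (Fin N) ℂ, IsWeightedHomogeneous a g k ∧ eval x g ≠ 0
  separates_points : ∀ x y : Fin N → ℂ, x ≠ 0 → y ≠ 0 → eval x f = 0 → eval y f = 0 →
    (∀ t : ℂ, t ≠ 0 → y ≠ scale a t x) →
    ∃ g : MvPolynomial (Fin N) ℂ, IsWeightedHomogeneous a g k ∧ eval x g = 0 ∧ eval y g ≠ 0
  separates_tangents : ∀ x v : Fin N → ℂ, x ≠ 0 → eval x f = 0 → diffAt f x v = 0 →
    (∀ c : ℂ, v ≠ fun i => c * (a i * x i)) →
    ∃ g : MvPolynomial (Fin N) ℂ, IsWeightedHomogeneous a g k ∧ eval x g = 0 ∧ diffAt g x v ≠ 0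

/-! ### Differentials -/

lemma diffAt_mul (g h : MvPolynomial (Fin N) ℂ) (x v : Fin N → ℂ) :
    diffAt (g * h) x v = diffAt g x v * eval x h + eval x g * diffAt h x v := by
  simp only [diffAt, pderiv_mul, map_add, map_mul, add_mul, Finset.sum_add_distrib,
    Finset.sum_mul, Finset.mul_sum]
  congr 1
  · exact Finset.sum_congr rfl fun i _ => by ring
  · exact Finset.sum_congr rfl fun i _ => by ring

lemma diffAt_add (g h : MvPolynomial (Fin N) ℂ) (x v : Fin N → ℂ) :
    diffAt (g + h) x v = diffAt g x v + diffAt h x v := by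
  simp only [diffAt, map_add, add_mul, Finset.sum_add_distrib]

lemma diffAt_sub (g h : MvPolynomial (Fin N) ℂ) (x v : Fin N → ℂ) :
    diffAt (g - h) x v = diffAt g x v - diffAt h x v := by
  simp only [diffAt, map_sub, sub_mul, Finset.sum_sub_distrib]

lemma diffAt_C_mul (c : ℂ) (g : MvPolynomial (Fin N) ℂ) (x v : Fin N → ℂ) :
    diffAt (C c * g) x v = c * diffAt g x v := by
  simp only [diffAt, pderiv_C_mul, map_mul, eval_C, Finset.mul_sum, mul_assoc]

lemma diffAt_X (i : Fin N) (x v : Fin N → ℂ) : diffAt (X i) x v = v i := by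
  classical
  simp only [diffAt, pderiv_X]
  rw [Finset.sum_eq_single i]
  · simp
  · intro j _ hj
    simp [hj.symm]
  · simp

lemma diffAt_one (x v : Fin N → ℂ) : diffAt (1 : MvPolynomial (Fin N) ℂ) x v = 0 := by
  simp [diffAt]

lemma diffAt_sub_right (g : MvPolynomial (Fin N) ℂ) (x v w : Fin N → ℂ) :
    diffAt g x (v - w) = diffAt g x v - diffAt g x w := by
  simp only [diffAt, Pi.sub_apply, mul_sub, Finset.sum_sub_distrib]

lemma diffAt_smul_right (g : MvPolynomial (Fin N) ℂ) (x v : Fin N → ℂ) (c : ℂ) :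
    diffAt g x (c • v) = c * diffAt g x v := by
  simp only [diffAt, Pi.smul_apply, smul_eq_mul, Finset.mul_sum]
  exact Finset.sum_congr rfl fun i _ => by ring

/-- If `v i = w * x i` then `d(X_i ^ n)_x(v) = n w x_i ^ n`. -/
lemma diffAt_X_pow (i : Fin N) (n : ℕ) (x v : Fin N → ℂ) (w : ℂ) (h : v i = w * x i) :
    diffAt (X i ^ n) x v = n * w * x i ^ n := by
  induction n with
  | zero => simp [diffAt_one]
  | succ n ih =>
    rw [pow_succ, diffAt_mul, ih, diffAt_X, h]
    simp only [map_pow, eval_X]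
    push_cast
    ring

lemma diffAt_euler {a : Fin N → ℕ} {k : ℕ} {g : MvPolynomial (Fin N) ℂ}
    (hg : IsWeightedHomogeneous a g k) (x : Fin N → ℂ) :
    diffAt g x (fun i => a i * x i) = k * eval x g := by
  have h := congrArg (eval x) hg.sum_weight_X_mul_pderiv
  simp only [map_sum, nsmul_eq_mul, map_mul, eval_X, map_natCast] at h
  rw [← h, diffAt]
  exact Finset.sum_congr rfl fun i _ => by ring

lemma eval_scale {a : Fin N → ℕ} {k : ℕ} {g : MvPolynomial (Fin N) ℂ}
    (hg : IsWeightedHomogeneous a g k) (t : ℂ) (x : Fin N → ℂ) :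
    eval (scale a t x) g = t ^ k * eval x g := by
  rw [eval_eq', eval_eq', Finset.mul_sum]
  refine Finset.sum_congr rfl fun u hu => ?_
  have hw := hg (mem_support_iff.mp hu)
  rw [Finsupp.weight_apply, Finsupp.sum_fintype _ _ (by simp)] at hw
  simp only [scale, mul_pow, Finset.prod_mul_distrib, ← pow_mul]
  rw [Finset.prod_pow_eq_pow_sum, ← hw]
  have : ∑ i, a i * u i = ∑ i, u i • a i := Finset.sum_congr rfl fun i _ => by
    simp [mul_comm]
  rw [this]
  ring

/-! ### Arithmetic of the weights -/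

section arith

variable {a : Fin N → ℕ} {d : ℕ} {f : MvPolynomial (Fin N) ℂ}

lemma scale_single (a : Fin N → ℕ) (i : Fin N) (c t : ℂ) (ht : t ^ a i = 1) :
    scale a t (Pi.single i c) = Pi.single i c := by
  funext j
  by_cases h : j = i
  · subst h; simp [scale, ht]
  · simp [scale, h]

lemma IsSmoothHypersurface.eval_single_ne (h : IsSmoothHypersurface a d f) {i : Fin N}
    (hi : a i ≠ 1) {c : ℂ} (hc : c ≠ 0) : eval (Pi.single i c) f ≠ 0 := by
  intro h0
  have hpos := h.weight_pos i
  have hprim := Complex.isPrimitiveRoot_exp (a i) hpos.ne'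
  have h1 := h.free (Pi.single i c) (by simpa using hc) h0 _
    (scale_single a i c _ hprim.pow_eq_one)
  rw [h1] at hprim
  exact hi (hprim.eq_orderOf.trans orderOf_one)

lemma IsSmoothHypersurface.weight_dvd (h : IsSmoothHypersurface a d f) (i : Fin N) :
    a i ∣ d := by
  by_cases hi : a i = 1
  · rw [hi]; exact one_dvd d
  have hprim := Complex.isPrimitiveRoot_exp (a i) (h.weight_pos i).ne'
  have h1 := eval_scale h.homogeneous (Complex.exp (2 * Real.pi * Complex.I / (a i : ℕ)))
    (Pi.single i 1)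
  rw [scale_single a i 1 _ hprim.pow_eq_one] at h1
  have h2 := h.eval_single_ne hi one_ne_zero
  have h3 : Complex.exp (2 * Real.pi * Complex.I / (a i : ℕ)) ^ d = 1 := by
    have : (Complex.exp (2 * Real.pi * Complex.I / (a i : ℕ)) ^ d - 1) *
        eval (Pi.single i 1) f = 0 := by rw [sub_mul, ← h1]; ring
    rcases mul_eq_zero.mp this with h4 | h4
    · exact sub_eq_zero.mp h4
    · exact absurd h4 h2
  exact hprim.dvd_of_pow_eq_one d h3

lemma aeval_polynomial_eval (F : Fin N → Polynomial ℂ) (g : MvPolynomial (Fin N) ℂ) (z : ℂ) :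
    (aeval F g).eval z = eval (fun l => (F l).eval z) g := by
  have h := congrArg (fun φ => φ g) (comp_aeval F (Polynomial.aeval z))
  simp only [AlgHom.comp_apply, Polynomial.coe_aeval_eq_eval] at h
  rw [h, ← aeval_eq_eval]

/-- The line through two coordinate points of weights `≠ 1` meets `X`. -/
lemma IsSmoothHypersurface.exists_zero_on_line (h : IsSmoothHypersurface a d f) {i j : Fin N}
    (hij : i ≠ j) (hi : a i ≠ 1) :
    ∃ z : ℂ, eval (fun l => if l = i then z else if l = j then 1 else 0) f = 0 := by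
  classical
  by_contra hcon
  push Not at hcon
  let q : Polynomial ℂ := aeval (fun l => if l = i then Polynomial.X else if l = j then 1 else 0) f
  let r : Polynomial ℂ := aeval (fun l => if l = i then 1 else if l = j then Polynomial.X else 0) f
  have hq : ∀ z : ℂ, q.eval z = eval (fun l => if l = i then z else if l = j then 1 else 0) f := by
    intro z
    simp only [q]
    rw [aeval_polynomial_eval]
    congr 2
    funext l
    split_ifs <;> simp
  have hr : ∀ z : ℂ, r.eval z = eval (fun l => if l = i then 1 else if l = j then z else 0) f := by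
    intro z
    simp only [r]
    rw [aeval_polynomial_eval]
    congr 2
    funext l
    split_ifs <;> simp
  have hdeg : q.degree = 0 := by
    by_contra hne
    obtain ⟨z, hz⟩ := IsAlgClosed.exists_root q hne
    exact hcon z (by rw [← hq]; exact hz)
  rw [Polynomial.eq_C_of_degree_eq_zero hdeg] at hq
  set c : ℂ := q.coeff 0 with hc
  have key : ∀ s : ℂ, s ≠ 0 → (r.comp (Polynomial.X ^ a j)).eval s =
      (Polynomial.C c * Polynomial.X ^ d).eval s := by
    intro s hs
    have h1 := eval_scale h.homogeneous s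
      (fun l => if l = i then (s⁻¹) ^ a i else if l = j then 1 else 0)
    have h2 : scale a s (fun l => if l = i then (s⁻¹) ^ a i else if l = j then 1 else 0) =
        fun l => if l = i then 1 else if l = j then s ^ a j else 0 := by
      funext l
      by_cases hl : l = i
      · subst hl
        simp [scale, hs]
      · by_cases hl' : l = j
        · subst hl'
          simp [scale, hl]
        · simp [scale, hl, hl']
    rw [h2, ← hr, ← hq] at h1
    simp only [Polynomial.eval_comp, Polynomial.eval_pow, Polynomial.eval_X, Polynomial.eval_mul,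
      Polynomial.eval_C] at h1 ⊢
    rw [h1]
    ring
  have hpoly : r.comp (Polynomial.X ^ a j) = Polynomial.C c * Polynomial.X ^ d := by
    apply Polynomial.eq_of_infinite_eval_eq
    refine Set.Infinite.mono (s := {s : ℂ | s ≠ 0}) (fun s hs => key s hs) ?_
    exact Set.Infinite.mono (s := ({0} : Set ℂ)ᶜ) (fun s hs => by simpa using hs)
      (Set.Finite.infinite_compl (Set.finite_singleton 0))
  have h3 := congrArg (Polynomial.eval 0) hpoly
  simp only [Polynomial.eval_comp, Polynomial.eval_pow, Polynomial.eval_X, Polynomial.eval_mul,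
    Polynomial.eval_C, zero_pow (h.weight_pos j).ne', zero_pow h.degree_pos.ne', mul_zero] at h3
  rw [hr] at h3
  refine h.eval_single_ne hi one_ne_zero ?_
  rw [← h3]
  congr 2
  funext l
  by_cases hl : l = i
  · subst hl; simp
  · by_cases hl' : l = j
    · subst hl'; simp [hl]
    · simp [hl, hl']

lemma IsSmoothHypersurface.coprime (h : IsSmoothHypersurface a d f) {i j : Fin N}
    (hij : i ≠ j) : Nat.Coprime (a i) (a j) := by
  classical
  by_contra hcop
  obtain ⟨p, hp, hpi, hpj⟩ := Nat.Prime.not_coprime_iff_dvd.mp hcop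
  have hi : a i ≠ 1 := fun h1 => hp.one_lt.ne' (Nat.dvd_one.mp (h1 ▸ hpi))
  obtain ⟨z, hz⟩ := h.exists_zero_on_line hij hi
  have hprim := Complex.isPrimitiveRoot_exp p hp.ne_zero
  have hne : (fun l => if l = i then z else if l = j then (1 : ℂ) else 0) ≠ 0 := by
    intro h0
    have := congrFun h0 j
    simp [hij.symm] at this
  have h1 := h.free _ hne hz (Complex.exp (2 * Real.pi * Complex.I / (p : ℕ))) (by
    funext l
    by_cases hl : l = i
    · subst hl
      obtain ⟨m, hm⟩ := hpi
      simp only [scale, hm, pow_mul, hprim.pow_eq_one, one_pow, one_mul]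
    · by_cases hl' : l = j
      · subst hl'
        obtain ⟨m, hm⟩ := hpj
        simp only [scale, hm, pow_mul, hprim.pow_eq_one, one_pow, one_mul]
      · simp [scale, hl, hl'])
  rw [h1] at hprim
  exact hp.one_lt.ne' (hprim.eq_orderOf.trans orderOf_one)

lemma sum_pred_lt_prod (a : Fin N → ℕ) (ha : ∀ i, 0 < a i) (s : Finset (Fin N)) :
    ∑ i ∈ s, (a i - 1) + 1 ≤ ∏ i ∈ s, a i := by
  classical
  induction s using Finset.induction_on with
  | empty => simp
  | insert i s his ih =>
    rw [Finset.sum_insert his, Finset.prod_insert his]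
    obtain ⟨b, hb⟩ : ∃ b, a i = b + 1 := ⟨a i - 1, by have := ha i; omega⟩
    have h1 : 1 ≤ ∏ i ∈ s, a i := Finset.one_le_prod' fun i _ => ha i
    rw [hb]
    simp only [Nat.add_sub_cancel]
    nlinarith

lemma IsSmoothHypersurface.prod_dvd (h : IsSmoothHypersurface a d f) (s : Finset (Fin N)) :
    ∏ i ∈ s, a i ∣ d := by
  classical
  induction s using Finset.induction_on with
  | empty => simp
  | insert i s his ih =>
    rw [Finset.prod_insert his]
    refine Nat.Coprime.mul_dvd_of_dvd_of_dvd ?_ (h.weight_dvd i) ih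
    exact Nat.Coprime.prod_right fun j hj => h.coprime (by rintro rfl; exact his hj)

/-- The numerical data attached to two indices. -/
lemma IsSmoothHypersurface.pair_data (h : IsSmoothHypersurface a d f) {i j : Fin N}
    (hij : i ≠ j) : ∃ e : ℕ, 1 ≤ e ∧ d = a i * a j * e ∧
      ∑ l, (a l - 1) + 1 ≤ (a i - 1) + (a j - 1) + e ∧
      ∀ l, l ≠ i → l ≠ j → a l ≤ e ∧ (e = 1 → a l = 1) := by
  classical
  set s : Finset (Fin N) := (Finset.univ.erase i).erase j with hs
  have hj : j ∈ Finset.univ.erase i := by simp [hij.symm]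
  have hprod : ∏ l, a l = a i * (a j * ∏ l ∈ s, a l) := by
    rw [← Finset.mul_prod_erase _ _ (Finset.mem_univ i), ← Finset.mul_prod_erase _ _ hj]
  have hsum : ∑ l, (a l - 1) = (a i - 1) + ((a j - 1) + ∑ l ∈ s, (a l - 1)) := by
    rw [← Finset.add_sum_erase _ _ (Finset.mem_univ i), ← Finset.add_sum_erase _ _ hj]
  obtain ⟨e0, he0⟩ := h.prod_dvd Finset.univ
  have he0pos : 0 < e0 := by
    rcases Nat.eq_zero_or_pos e0 with h0 | h0
    · rw [h0, mul_zero] at he0
      exact absurd he0 h.degree_pos.ne'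
    · exact h0
  have hP : 1 ≤ ∏ l ∈ s, a l := Finset.one_le_prod' fun l _ => h.weight_pos l
  refine ⟨(∏ l ∈ s, a l) * e0, Nat.mul_pos hP he0pos, ?_, ?_, ?_⟩
  · rw [he0, hprod]; ring
  · have := sum_pred_lt_prod a h.weight_pos s
    rw [hsum]
    nlinarith
  · intro l hli hlj
    have hl : l ∈ s := by simp [hs, hli, hlj]
    have hdvd : a l ∣ (∏ l ∈ s, a l) * e0 := (Finset.dvd_prod_of_mem a hl).mul_right e0
    refine ⟨Nat.le_of_dvd (Nat.mul_pos hP he0pos) hdvd, fun h1 => ?_⟩
    rw [h1] at hdvd
    exact Nat.dvd_one.mp hdvd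

/-- The numerical data attached to one index. -/
lemma IsSmoothHypersurface.single_data (h : IsSmoothHypersurface a d f) (i : Fin N) :
    ∃ e : ℕ, 1 ≤ e ∧ d = a i * e ∧ ∑ l, (a l - 1) + 1 ≤ (a i - 1) + e ∧
      ∀ l, l ≠ i → (e = 1 → a l = 1) := by
  classical
  set s : Finset (Fin N) := Finset.univ.erase i with hs
  have hprod : ∏ l, a l = a i * ∏ l ∈ s, a l := by
    rw [← Finset.mul_prod_erase _ _ (Finset.mem_univ i)]
  have hsum : ∑ l, (a l - 1) = (a i - 1) + ∑ l ∈ s, (a l - 1) := by
    rw [← Finset.add_sum_erase _ _ (Finset.mem_univ i)]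
  obtain ⟨e0, he0⟩ := h.prod_dvd Finset.univ
  have he0pos : 0 < e0 := by
    rcases Nat.eq_zero_or_pos e0 with h0 | h0
    · rw [h0, mul_zero] at he0
      exact absurd he0 h.degree_pos.ne'
    · exact h0
  have hP : 1 ≤ ∏ l ∈ s, a l := Finset.one_le_prod' fun l _ => h.weight_pos l
  refine ⟨(∏ l ∈ s, a l) * e0, Nat.mul_pos hP he0pos, ?_, ?_, ?_⟩
  · rw [he0, hprod]; ring
  · have := sum_pred_lt_prod a h.weight_pos s
    rw [hsum]
    nlinarith
  · intro l hli h1
    have hl : l ∈ s := by simp [hs, hli]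
    have hdvd : a l ∣ (∏ l ∈ s, a l) * e0 := (Finset.dvd_prod_of_mem a hl).mul_right e0
    rw [h1] at hdvd
    exact Nat.dvd_one.mp hdvd

lemma IsSmoothHypersurface.one_le (h : IsSmoothHypersurface a d f) {k : ℕ}
    (hk : d ≤ k + ∑ l, (a l - 1)) : 1 ≤ k := by
  have h1 := sum_pred_lt_prod a h.weight_pos Finset.univ
  have h2 := Nat.le_of_dvd h.degree_pos (h.prod_dvd Finset.univ)
  omega

lemma IsSmoothHypersurface.weight_le (h : IsSmoothHypersurface a d f) {k : ℕ}
    (hk : d ≤ k + ∑ l, (a l - 1)) (i : Fin N) :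
    a i ≤ k ∨ (d = a i ∧ a i ≠ 1 ∧ ∀ l, l ≠ i → a l = 1) := by
  by_cases hi : a i = 1
  · left; rw [hi]; exact h.one_le hk
  obtain ⟨e, he, hd, hs, hl⟩ := h.single_data i
  obtain ⟨b, hb⟩ : ∃ b, a i = b + 1 := ⟨a i - 1, by have := h.weight_pos i; omega⟩
  rcases Nat.lt_or_ge e 2 with h2 | h2
  · right
    have he1 : e = 1 := by omega
    refine ⟨by rw [hd, he1, mul_one], hi, fun l hli => hl l hli he1⟩
  · left
    obtain ⟨c, hc⟩ : ∃ c, e = c + 2 := ⟨e - 2, by omega⟩
    rw [hb] at hs hd ⊢
    simp only [Nat.add_sub_cancel] at hs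
    subst hc
    have : (b + 1) * (c + 2) = b * c + 2 * b + c + 2 := by ring
    rw [this] at hd
    have hbc : 0 ≤ b * c := Nat.zero_le _
    omega

/-- The three inequalities of Frobenius type. -/
lemma IsSmoothHypersurface.frobenius (h : IsSmoothHypersurface a d f) {k : ℕ}
    (hk : d ≤ k + ∑ l, (a l - 1)) {i j : Fin N} (hij : i ≠ j) :
    (a i).pred * (a j).pred ≤ k ∧
    (a i ≠ 1 → ∀ l, l ≠ i → l ≠ j → (a i).pred * (a j).pred + a l ≤ k) ∧
    ((a i * a j + (a i).pred * (a j).pred ≤ k) ∨
      (d = a i * a j ∧ ∀ l, l ≠ i → l ≠ j → a l = 1)) := by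
  obtain ⟨e, he, hd, hs, hl⟩ := h.pair_data hij
  obtain ⟨x, hx⟩ : ∃ x, a i = x + 1 := ⟨a i - 1, by have := h.weight_pos i; omega⟩
  obtain ⟨y, hy⟩ : ∃ y, a j = y + 1 := ⟨a j - 1, by have := h.weight_pos j; omega⟩
  rw [hx, hy] at hd hs ⊢
  simp only [Nat.pred_eq_sub_one, Nat.add_sub_cancel] at hs ⊢
  obtain ⟨c, rfl⟩ : ∃ c, e = c + 1 := ⟨e - 1, by omega⟩
  have hd' : d = x * y * c + x * y + x * c + x + y * c + y + c + 1 := by rw [hd]; ring
  refine ⟨?_, ?_, ?_⟩
  · have h1 : 0 ≤ x * y * c := Nat.zero_le _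
    have h2 : 0 ≤ x * c := Nat.zero_le _
    have h3 : 0 ≤ y * c := Nat.zero_le _
    omega
  · intro hx1 l hli hlj
    have hle := (hl l hli hlj).1
    have hx0 : 1 ≤ x := by omega
    have h1 : 0 ≤ x * y * c := Nat.zero_le _
    have h2 : c ≤ x * c := Nat.le_mul_of_pos_left c hx0
    have h3 : 0 ≤ y * c := Nat.zero_le _
    omega
  · rcases Nat.eq_zero_or_pos c with h0 | h0
    · right
      subst h0
      refine ⟨by rw [hd]; ring, fun l hli hlj => (hl l hli hlj).2 rfl⟩
    · left
      obtain ⟨b, rfl⟩ : ∃ b, c = b + 1 := ⟨c - 1, by omega⟩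
      have hd2 : d = x * y * b + 2 * (x * y) + x * b + 2 * x + y * b + 2 * y + b + 2 := by
        rw [hd]; ring
      have h1 : 0 ≤ x * y * b := Nat.zero_le _
      have h2 : 0 ≤ x * b := Nat.zero_le _
      have h3 : 0 ≤ y * b := Nat.zero_le _
      have h4 : (x + 1) * (y + 1) = x * y + x + y + 1 := by ring
      rw [h4]
      omega

lemma exists_rep {A B m : ℕ} (hc : Nat.Coprime A B) (hm : A.pred * B.pred ≤ m) :
    ∃ α β : ℕ, α * A + β * B = m :=
  Nat.exists_add_mul_eq_of_gcd_dvd_of_mul_pred_le A B m (by rw [hc]; exact one_dvd m) hm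

end arith

/-! ### Forms of degree `k` -/

section forms

variable {a : Fin N → ℕ} {d k : ℕ} {f : MvPolynomial (Fin N) ℂ}

lemma isWH_X_pow (a : Fin N → ℕ) (i : Fin N) (α : ℕ) :
    IsWeightedHomogeneous a ((X i : MvPolynomial (Fin N) ℂ) ^ α) (α * a i) := by
  simpa using (isWeightedHomogeneous_X ℂ a i).pow α

lemma isWH_two (a : Fin N → ℕ) (i j : Fin N) {α β k : ℕ} (h : α * a i + β * a j = k) :
    IsWeightedHomogeneous a ((X i : MvPolynomial (Fin N) ℂ) ^ α * X j ^ β) k := by
  rw [← h]; exact (isWH_X_pow a i α).mul (isWH_X_pow a j β)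

lemma isWH_three (a : Fin N → ℕ) (i j l : Fin N) {α β k : ℕ} (h : α * a i + β * a j + a l = k) :
    IsWeightedHomogeneous a ((X l : MvPolynomial (Fin N) ℂ) * (X i ^ α * X j ^ β)) k := by
  rw [← h, add_comm]
  exact (isWeightedHomogeneous_X ℂ a l).mul (isWH_two a i j rfl)

/-- A point of `X` whose nonzero coordinates all have weight `≠ 1` has at least two of them. -/
lemma IsSmoothHypersurface.exists_two (h : IsSmoothHypersurface a d f) {x : Fin N → ℂ}
    (hx : x ≠ 0) (hfx : eval x f = 0) (h1 : ∀ l, x l ≠ 0 → a l ≠ 1) :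
    ∃ i j, i ≠ j ∧ x i ≠ 0 ∧ x j ≠ 0 ∧ a i ≠ 1 ∧ a j ≠ 1 := by
  obtain ⟨i, hi⟩ := Function.ne_iff.mp hx
  by_contra hcon
  push Not at hcon
  have hsingle : x = Pi.single i (x i) := by
    funext j
    by_cases hj : j = i
    · subst hj; simp
    · rw [Pi.single_eq_of_ne hj]
      by_contra hxj
      exact h1 j hxj (hcon i j (Ne.symm hj) hi hxj (h1 i hi))
  rw [hsingle] at hfx
  exact h.eval_single_ne (h1 i hi) hi hfx

lemma IsSmoothHypersurface.base_point_free (h : IsSmoothHypersurface a d f)
    (hk : d ≤ k + ∑ l, (a l - 1)) {x : Fin N → ℂ} (hx : x ≠ 0) (hfx : eval x f = 0) :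
    ∃ g : MvPolynomial (Fin N) ℂ, IsWeightedHomogeneous a g k ∧ eval x g ≠ 0 := by
  by_cases h1 : ∀ l, x l ≠ 0 → a l ≠ 1
  · obtain ⟨i, j, hij, hxi, hxj, hi, hj⟩ := h.exists_two hx hfx h1
    obtain ⟨α, β, hab⟩ := exists_rep (h.coprime hij) (h.frobenius hk hij).1
    refine ⟨_, isWH_two a i j hab, ?_⟩
    simp [hxi, hxj]
  · push Not at h1
    obtain ⟨l, hxl, hl⟩ := h1
    refine ⟨X l ^ k, by simpa [hl] using isWH_X_pow a l k, ?_⟩
    simp [hxl]

/-! ### The equation on a coordinate line, and the equation of a linear cone -/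

lemma span_X_vanish (s : Set (Fin N)) {g : MvPolynomial (Fin N) ℂ}
    (hg : g ∈ Ideal.span (X '' s : Set (MvPolynomial (Fin N) ℂ))) {x v : Fin N → ℂ}
    (hx : ∀ l ∈ s, x l = 0) (hv : ∀ l ∈ s, v l = 0) : eval x g = 0 ∧ diffAt g x v = 0 := by
  induction hg using Submodule.span_induction with
  | mem g hg =>
    obtain ⟨l, hl, rfl⟩ := hg
    exact ⟨by simp [hx l hl], by rw [diffAt_X, hv l hl]⟩
  | zero => exact ⟨by simp, by simp [diffAt]⟩
  | add g1 g2 _ _ h1 h2 =>
    exact ⟨by rw [map_add, h1.1, h2.1, add_zero], by rw [diffAt_add, h1.2, h2.2, add_zero]⟩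
  | smul r g _ hg =>
    rw [smul_eq_mul]
    exact ⟨by rw [map_mul, hg.1, mul_zero], by rw [diffAt_mul, hg.1, hg.2]; ring⟩

lemma line_formula (hf : IsWeightedHomogeneous a f d) {i j : Fin N} (hij : i ≠ j)
    (hi : 0 < a i) (hj : 0 < a j) (hcop : Nat.Coprime (a i) (a j)) (hd : d = a i * a j) :
    ∃ α β : ℂ, f - (C α * X i ^ a j + C β * X j ^ a i) ∈
      Ideal.span (X '' {l | l ≠ i ∧ l ≠ j} : Set (MvPolynomial (Fin N) ℂ)) := by
  classical
  refine ⟨coeff (Finsupp.single i (a j)) f, coeff (Finsupp.single j (a i)) f, ?_⟩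
  rw [mem_ideal_span_X_image]
  intro m hm
  by_contra hcon
  push Not at hcon
  have hms : ∀ l, l ≠ i → l ≠ j → m l = 0 := fun l hl hl' => hcon l ⟨hl, hl'⟩
  have hc1 : coeff m (C (coeff (Finsupp.single i (a j)) f) * (X i : MvPolynomial (Fin N) ℂ) ^ a j) =
      if Finsupp.single i (a j) = m then coeff (Finsupp.single i (a j)) f else 0 := by
    rw [coeff_C_mul, coeff_X_pow]; split_ifs <;> simp
  have hc2 : coeff m (C (coeff (Finsupp.single j (a i)) f) * (X j : MvPolynomial (Fin N) ℂ) ^ a i) =
      if Finsupp.single j (a i) = m then coeff (Finsupp.single j (a i)) f else 0 := by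
    rw [coeff_C_mul, coeff_X_pow]; split_ifs <;> simp
  rw [mem_support_iff, coeff_sub, coeff_add, hc1, hc2] at hm
  by_cases h1 : Finsupp.single i (a j) = m
  · have h2 : Finsupp.single j (a i) ≠ m := by
      intro h2
      have := DFunLike.congr_fun (h1.trans h2.symm) i
      simp [hij.symm] at this
      omega
    rw [if_pos h1, if_neg h2, h1, add_zero, sub_self] at hm
    exact hm rfl
  · by_cases h2 : Finsupp.single j (a i) = m
    · rw [if_neg h1, if_pos h2, h2, zero_add, sub_self] at hm
      exact hm rfl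
    · rw [if_neg h1, if_neg h2, add_zero, sub_zero] at hm
      have hw := hf hm
      rw [Finsupp.weight_apply, Finsupp.sum_fintype _ _ (by simp)] at hw
      rw [Finset.sum_eq_add i j hij (fun l _ hl => by rw [hms l hl.1 hl.2, zero_smul])
        (by simp) (by simp), smul_eq_mul, smul_eq_mul, hd] at hw
      -- `m_i a_i + m_j a_j = a_i a_j`
      have hdvd : a j ∣ m i * a i := by
        have h3 : a j ∣ m i * a i + m j * a j := by rw [hw]; exact Dvd.intro_left _ rfl
        exact (Nat.dvd_add_left (Dvd.intro_left _ rfl)).mp h3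
      have hdvd' : a j ∣ m i := (Nat.Coprime.symm hcop).dvd_of_dvd_mul_right hdvd
      obtain ⟨c, hc⟩ := hdvd'
      rcases Nat.eq_zero_or_pos c with h0 | h0
      · apply h2
        ext l
        by_cases hl : l = i
        · subst hl
          rw [hc, h0, mul_zero, Finsupp.single_apply, if_neg hij.symm]
        · by_cases hl' : l = j
          · subst hl'
            rw [hc, h0, mul_zero, zero_mul, zero_add] at hw
            rw [Finsupp.single_eq_same]
            exact (Nat.eq_of_mul_eq_mul_right hj hw).symm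
          · rw [hms l hl hl', Finsupp.single_apply, if_neg (Ne.symm hl')]
      · apply h1
        have h4 : a j * c * a i + m j * a j = a i * a j := by rw [← hc]; exact hw
        have h5 : a i * a j * c = a j * c * a i := by ring
        have hc1' : c = 1 := by
          have h6 : 0 < a i * a j := Nat.mul_pos hi hj
          have h7 : a i * a j * c ≤ a i * a j * 1 := by rw [h5, mul_one]; omega
          have := Nat.le_of_mul_le_mul_left h7 h6
          omega
        have hmj : m j = 0 := by
          rw [hc1'] at h4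
          have h8 : m j * a j = 0 := by
            have : a j * 1 * a i = a i * a j := by ring
            omega
          rcases Nat.mul_eq_zero.mp h8 with h9 | h9
          · exact h9
          · omega
        ext l
        by_cases hl : l = i
        · subst hl
          rw [hc, hc1', mul_one, Finsupp.single_eq_same]
        · by_cases hl' : l = j
          · subst hl'
            rw [hmj, Finsupp.single_apply, if_neg hij]
          · rw [hms l hl hl', Finsupp.single_apply, if_neg (Ne.symm hl)]

lemma cone_formula (hf : IsWeightedHomogeneous a f d) {i : Fin N} (hpos : ∀ l, 0 < a l)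
    (hd : d = a i) : ∃ γ : ℂ, i ∉ (f - C γ * X i).vars := by
  classical
  refine ⟨coeff (Finsupp.single i 1) f, ?_⟩
  intro hi
  rw [mem_vars_iff_mem_support] at hi
  obtain ⟨m, hm, him⟩ := hi
  rw [Finsupp.mem_support_iff] at him
  have hc1 : coeff m (C (coeff (Finsupp.single i 1) f) * (X i : MvPolynomial (Fin N) ℂ)) =
      if Finsupp.single i 1 = m then coeff (Finsupp.single i 1) f else 0 := by
    rw [coeff_C_mul, coeff_X]; split_ifs <;> simp
  rw [mem_support_iff, coeff_sub, hc1] at hm
  by_cases h1 : Finsupp.single i 1 = m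
  · rw [if_pos h1, h1, sub_self] at hm
    exact hm rfl
  · rw [if_neg h1, sub_zero] at hm
    have hw := hf hm
    rw [Finsupp.weight_apply, Finsupp.sum_fintype _ _ (by simp),
      ← Finset.add_sum_erase _ _ (Finset.mem_univ i), smul_eq_mul, hd] at hw
    have h2 : a i ≤ m i * a i := Nat.le_mul_of_pos_left _ (Nat.pos_of_ne_zero him)
    have h3 : ∑ l ∈ Finset.univ.erase i, m l • a l = 0 := by omega
    have h4 : m i * a i = 1 * a i := by omega
    have h5 := Nat.eq_of_mul_eq_mul_right (hpos i) h4
    apply h1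
    ext l
    by_cases hl : l = i
    · subst hl; rw [Finsupp.single_eq_same, h5]
    · rw [Finsupp.single_apply, if_neg (Ne.symm hl)]
      have h6 := Finset.sum_eq_zero_iff.mp h3 l (by simp [hl])
      rw [smul_eq_mul] at h6
      rcases Nat.mul_eq_zero.mp h6 with h7 | h7
      · exact h7.symm
      · exact absurd h7 (hpos l).ne'

lemma eval_congr_of_notMem_vars {g : MvPolynomial (Fin N) ℂ} {i : Fin N} (hi : i ∉ g.vars)
    {x y : Fin N → ℂ} (hxy : ∀ l, l ≠ i → x l = y l) : eval x g = eval y g := by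
  refine hom_congr_vars (f₁ := eval x) (f₂ := eval y) ?_ ?_ rfl
  · ext r; simp
  · intro l hl _
    simp only [eval_X]
    exact hxy l (by rintro rfl; exact hi hl)

lemma IsSmoothHypersurface.cone (h : IsSmoothHypersurface a d f) {i : Fin N} (hd : d = a i)
    (hi : a i ≠ 1) : ∃ γ : ℂ, γ ≠ 0 ∧ i ∉ (f - C γ * X i).vars := by
  obtain ⟨γ, hγ⟩ := cone_formula h.homogeneous h.weight_pos hd
  refine ⟨γ, ?_, hγ⟩
  rintro rfl
  simp only [map_zero, zero_mul, sub_zero] at hγ
  refine h.eval_single_ne hi one_ne_zero ?_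
  rw [eval_congr_of_notMem_vars hγ (y := 0) (fun l hl => by simp [hl])]
  have h1 := eval_scale h.homogeneous 0 0
  rw [zero_pow h.degree_pos.ne', zero_mul] at h1
  rw [← h1]
  congr 2
  funext l
  simp [scale]

/-! ### Separation of points -/

/-- Two nonzero numbers `r, s` with `r ^ B = s ^ A`, `A, B` coprime, are `t ^ A, t ^ B`. -/
lemma exists_scale {A B : ℕ} (hc : Nat.Coprime A B) {r s : ℂ} (hr : r ≠ 0)
    (hs : s ≠ 0) (h : r ^ B = s ^ A) : ∃ t : ℂ, t ≠ 0 ∧ t ^ A = r ∧ t ^ B = s := by
  have hbez : (A : ℤ) * Nat.gcdA A B + B * Nat.gcdB A B = 1 := by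
    rw [← Nat.gcd_eq_gcd_ab, hc]; simp
  refine ⟨r ^ Nat.gcdA A B * s ^ Nat.gcdB A B, mul_ne_zero (zpow_ne_zero _ hr)
    (zpow_ne_zero _ hs), ?_, ?_⟩
  · have h1 : (s ^ Nat.gcdB A B) ^ A = (r ^ B) ^ Nat.gcdB A B := by
      rw [h, ← zpow_natCast, ← zpow_mul, ← zpow_natCast, ← zpow_mul, mul_comm]
    rw [mul_pow, h1, ← zpow_natCast, ← zpow_mul, ← zpow_natCast, ← zpow_mul, ← zpow_add₀ hr,
      mul_comm (Nat.gcdA A B), hbez, zpow_one]
  · have h1 : (r ^ Nat.gcdA A B) ^ B = (s ^ A) ^ Nat.gcdA A B := by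
      rw [← h, ← zpow_natCast, ← zpow_mul, ← zpow_natCast, ← zpow_mul, mul_comm]
    rw [mul_pow, h1, ← zpow_natCast, ← zpow_mul, ← zpow_natCast, ← zpow_mul, ← zpow_add₀ hs,
      mul_comm (Nat.gcdB A B), hbez, zpow_one]

lemma eq_one_of_coprime_pow {A B : ℕ} (hc : Nat.Coprime A B) {z : ℂ} (h1 : z ^ A = 1)
    (h2 : z ^ B = 1) : z = 1 := by
  have h3 : orderOf z ∣ Nat.gcd A B :=
    Nat.dvd_gcd (orderOf_dvd_of_pow_eq_one h1) (orderOf_dvd_of_pow_eq_one h2)
  rw [hc] at h3
  exact orderOf_eq_one_iff.mp (Nat.dvd_one.mp h3)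

/-- On the coordinate line of a pair with `d = a_i a_j` the equation is `α x_i^{a_j} + β x_j^{a_i}`
with `α, β ≠ 0`. -/
lemma IsSmoothHypersurface.line (h : IsSmoothHypersurface a d f) {i j : Fin N} (hij : i ≠ j)
    (hi : a i ≠ 1) (hj : a j ≠ 1) (hd : d = a i * a j) :
    ∃ α β : ℂ, α ≠ 0 ∧ β ≠ 0 ∧ f - (C α * X i ^ a j + C β * X j ^ a i) ∈
      Ideal.span (X '' {l | l ≠ i ∧ l ≠ j} : Set (MvPolynomial (Fin N) ℂ)) := by
  obtain ⟨α, β, hab⟩ := line_formula h.homogeneous hij (h.weight_pos i) (h.weight_pos j)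
    (h.coprime hij) hd
  refine ⟨α, β, ?_, ?_, hab⟩
  · rintro rfl
    refine h.eval_single_ne hi one_ne_zero ?_
    have h1 := (span_X_vanish _ hab (x := Pi.single i 1) (v := 0)
      (fun l hl => by simp [hl.1]) (fun l _ => rfl)).1
    simpa [hij.symm, (h.weight_pos i).ne'] using h1
  · rintro rfl
    refine h.eval_single_ne hj one_ne_zero ?_
    have h1 := (span_X_vanish _ hab (x := Pi.single j 1) (v := 0)
      (fun l hl => by simp [hl.2]) (fun l _ => rfl)).1
    simpa [hij, (h.weight_pos j).ne'] using h1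

lemma IsSmoothHypersurface.pair_ratio (h : IsSmoothHypersurface a d f)
    (hk : d ≤ k + ∑ l, (a l - 1)) {x y : Fin N → ℂ} (hy : y ≠ 0)
    (hfx : eval x f = 0) (hfy : eval y f = 0) {c : ℂ} (hc : c ≠ 0)
    (hxy : ∀ g : MvPolynomial (Fin N) ℂ, IsWeightedHomogeneous a g k →
      eval y g = c * eval x g) (h1 : ∀ l, x l ≠ 0 → a l ≠ 1)
    {i j : Fin N} (hij : i ≠ j) (hxi : x i ≠ 0) (hxj : x j ≠ 0) :
    y i ≠ 0 ∧ y j ≠ 0 ∧ (y i / x i) ^ a j = (y j / x j) ^ a i := by
  have hk1 := h.one_le hk
  rcases (h.frobenius hk hij).2.2 with hbig | ⟨hd, hone⟩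
  · obtain ⟨α, β, hab⟩ := exists_rep (h.coprime hij) (m := k - a i * a j) (by omega)
    have e1 : (α + a j) * a i + β * a j = k := by
      have : (α + a j) * a i + β * a j = (α * a i + β * a j) + a i * a j := by ring
      omega
    have e2 : α * a i + (β + a i) * a j = k := by
      have : α * a i + (β + a i) * a j = (α * a i + β * a j) + a i * a j := by ring
      omega
    have m1 := hxy _ (isWH_two a i j e1)
    have m2 := hxy _ (isWH_two a i j e2)
    simp only [map_mul, map_pow, eval_X] at m1 m2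
    have hyi : y i ≠ 0 := by
      intro h0
      rw [h0, zero_pow (by have := h.weight_pos j; omega), zero_mul] at m1
      exact mul_ne_zero hc (mul_ne_zero (pow_ne_zero _ hxi) (pow_ne_zero _ hxj)) m1.symm
    have hyj : y j ≠ 0 := by
      intro h0
      rw [h0, zero_pow (by have := h.weight_pos i; omega), mul_zero] at m2
      exact mul_ne_zero hc (mul_ne_zero (pow_ne_zero _ hxi) (pow_ne_zero _ hxj)) m2.symm
    refine ⟨hyi, hyj, ?_⟩
    -- write `y = r x`
    set r : ℂ := y i / x i with hr
    set s : ℂ := y j / x j with hs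
    have hr0 : r ≠ 0 := div_ne_zero hyi hxi
    have hs0 : s ≠ 0 := div_ne_zero hyj hxj
    have eyi : y i = r * x i := by rw [hr]; field_simp
    have eyj : y j = s * x j := by rw [hs]; field_simp
    rw [eyi, eyj, mul_pow, mul_pow] at m1 m2
    have hX1 : x i ^ (α + a j) * x j ^ β ≠ 0 :=
      mul_ne_zero (pow_ne_zero _ hxi) (pow_ne_zero _ hxj)
    have hX2 : x i ^ α * x j ^ (β + a i) ≠ 0 :=
      mul_ne_zero (pow_ne_zero _ hxi) (pow_ne_zero _ hxj)
    have n1 : r ^ (α + a j) * s ^ β = c := by
      apply mul_right_cancel₀ hX1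
      rw [← m1]; ring
    have n2 : r ^ α * s ^ (β + a i) = c := by
      apply mul_right_cancel₀ hX2
      rw [← m2]; ring
    have n3 := n1.trans n2.symm
    rw [pow_add, pow_add] at n3
    apply mul_left_cancel₀ (mul_ne_zero (pow_ne_zero α hr0) (pow_ne_zero β hs0))
    rw [← sub_eq_zero] at n3 ⊢
    rw [← n3]; ring
  · obtain ⟨α, β, hα, hβ, hab⟩ := h.line hij (h1 i hxi) (h1 j hxj) hd
    have hxl : ∀ l ∈ {l | l ≠ i ∧ l ≠ j}, x l = 0 := by
      intro l hl
      by_contra hne
      exact h1 l hne (hone l hl.1 hl.2)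
    have hyl : ∀ l ∈ {l | l ≠ i ∧ l ≠ j}, y l = 0 := by
      intro l hl
      have m0 := hxy (X l ^ k) (by simpa [hone l hl.1 hl.2] using isWH_X_pow a l k)
      simp only [map_pow, eval_X, hxl l hl, zero_pow (by omega : k ≠ 0), mul_zero] at m0
      exact eq_zero_of_pow_eq_zero m0
    have ex := (span_X_vanish _ hab (x := x) (v := 0) hxl (fun l _ => rfl)).1
    have ey := (span_X_vanish _ hab (x := y) (v := 0) hyl (fun l _ => rfl)).1
    simp only [map_sub, map_add, map_mul, map_pow, eval_C, eval_X, hfx, hfy, zero_sub,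
      neg_eq_zero] at ex ey
    have hyij : y i ≠ 0 ∧ y j ≠ 0 := by
      constructor
      · intro h0
        rw [h0, zero_pow (h.weight_pos j).ne', mul_zero, zero_add] at ey
        have hyj : y j = 0 := by
          rcases mul_eq_zero.mp ey with h3 | h3
          · exact absurd h3 hβ
          · exact eq_zero_of_pow_eq_zero h3
        apply hy
        funext l
        by_cases hl : l = i
        · rw [hl, h0]; rfl
        · by_cases hl' : l = j
          · rw [hl', hyj]; rfl
          · exact hyl l ⟨hl, hl'⟩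
      · intro h0
        rw [h0, zero_pow (h.weight_pos i).ne', mul_zero, add_zero] at ey
        have hyi : y i = 0 := by
          rcases mul_eq_zero.mp ey with h3 | h3
          · exact absurd h3 hα
          · exact eq_zero_of_pow_eq_zero h3
        apply hy
        funext l
        by_cases hl : l = i
        · rw [hl, hyi]; rfl
        · by_cases hl' : l = j
          · rw [hl', h0]; rfl
          · exact hyl l ⟨hl, hl'⟩
    refine ⟨hyij.1, hyij.2, ?_⟩
    rw [div_pow, div_pow, div_eq_div_iff (pow_ne_zero _ hxi) (pow_ne_zero _ hxj)]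
    apply mul_left_cancel₀ hα
    have e1 : α * x i ^ a j = -(β * x j ^ a i) := eq_neg_of_add_eq_zero_left ex
    have e2 : α * y i ^ a j = -(β * y j ^ a i) := eq_neg_of_add_eq_zero_left ey
    calc α * (y i ^ a j * x j ^ a i) = (α * y i ^ a j) * x j ^ a i := by ring
      _ = y j ^ a i * (-(β * x j ^ a i)) := by rw [e2]; ring
      _ = y j ^ a i * (α * x i ^ a j) := by rw [e1]
      _ = α * (y j ^ a i * x i ^ a j) := by ring

lemma IsSmoothHypersurface.key_points (h : IsSmoothHypersurface a d f)
    (hk : d ≤ k + ∑ l, (a l - 1)) {x y : Fin N → ℂ} (hx : x ≠ 0) (hy : y ≠ 0)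
    (hfx : eval x f = 0) (hfy : eval y f = 0) {c : ℂ} (hc : c ≠ 0)
    (hxy : ∀ g : MvPolynomial (Fin N) ℂ, IsWeightedHomogeneous a g k →
      eval y g = c * eval x g) : ∃ t : ℂ, t ≠ 0 ∧ y = scale a t x := by
  have hk1 := h.one_le hk
  by_cases h1 : ∀ l, x l ≠ 0 → a l ≠ 1
  · -- no nonzero coordinate of weight one
    obtain ⟨i, j, hij, hxi, hxj, hi, hj⟩ := h.exists_two hx hfx h1
    have hpair := fun (i j : Fin N) (hij : i ≠ j) (hxi : x i ≠ 0) (hxj : x j ≠ 0) =>
      h.pair_ratio hk hy hfx hfy hc hxy h1 hij hxi hxj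
    obtain ⟨hyi, hyj, hr⟩ := hpair i j hij hxi hxj
    obtain ⟨t, ht0, hti, htj⟩ := exists_scale (h.coprime hij) (div_ne_zero hyi hxi)
      (div_ne_zero hyj hxj) hr
    refine ⟨t, ht0, ?_⟩
    funext l
    by_cases hli : l = i
    · subst hli
      simp only [scale, hti]
      field_simp
    by_cases hlj : l = j
    · subst hlj
      simp only [scale, htj]
      field_simp
    by_cases hxl : x l = 0
    · simp only [scale, hxl, mul_zero]
      have hfrob := (h.frobenius hk hij).2.1 hi l hli hlj
      obtain ⟨α, β, hab⟩ := exists_rep (h.coprime hij) (m := k - a l) (by omega)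
      have m1 := hxy _ (isWH_three a i j l (α := α) (β := β) (by omega))
      simp only [map_mul, map_pow, eval_X, hxl, zero_mul, mul_zero] at m1
      rcases mul_eq_zero.mp m1 with h3 | h3
      · exact h3
      · exact absurd h3 (mul_ne_zero (pow_ne_zero _ hyi) (pow_ne_zero _ hyj))
    · obtain ⟨_, hyl, hril⟩ := hpair i l (Ne.symm hli) hxi hxl
      obtain ⟨_, _, hrjl⟩ := hpair j l (Ne.symm hlj) hxj hxl
      have hz : y l / x l / t ^ a l = 1 := by
        apply eq_one_of_coprime_pow (h.coprime hij)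
        · rw [div_pow, ← hril, ← hti, ← pow_mul, ← pow_mul, mul_comm (a l)]
          exact div_self (pow_ne_zero _ ht0)
        · rw [div_pow, ← hrjl, ← htj, ← pow_mul, ← pow_mul, mul_comm (a l)]
          exact div_self (pow_ne_zero _ ht0)
      have h3 : y l / x l = t ^ a l := by
        rwa [div_eq_one_iff_eq (pow_ne_zero _ ht0)] at hz
      simp only [scale, ← h3]
      field_simp
  · push Not at h1
    obtain ⟨l, hxl, hl⟩ := h1
    have m0 := hxy (X l ^ k) (by simpa [hl] using isWH_X_pow a l k)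
    simp only [map_pow, eval_X] at m0
    have hyl : y l ≠ 0 := by
      intro h0
      rw [h0, zero_pow (by omega)] at m0
      exact mul_ne_zero hc (pow_ne_zero _ hxl) m0.symm
    set t : ℂ := y l / x l with ht
    have ht0 : t ≠ 0 := div_ne_zero hyl hxl
    have hyt : y l = t * x l := by rw [ht]; field_simp
    have hct : c = t ^ k := by
      rw [hyt, mul_pow] at m0
      exact (mul_right_cancel₀ (pow_ne_zero _ hxl) m0).symm
    have hcoord : ∀ i, a i ≤ k → y i = t ^ a i * x i := by
      intro i hik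
      have m1 := hxy _ (isWH_two a l i (α := k - a i) (β := 1) (by rw [hl]; omega))
      simp only [map_mul, map_pow, eval_X, pow_one] at m1
      rw [hyt, hct, mul_pow] at m1
      have h2 : t ^ k = t ^ (k - a i) * t ^ a i := by rw [← pow_add]; congr 1; omega
      rw [h2] at m1
      have h3 : t ^ (k - a i) * x l ^ (k - a i) ≠ 0 :=
        mul_ne_zero (pow_ne_zero _ ht0) (pow_ne_zero _ hxl)
      apply mul_left_cancel₀ h3
      rw [m1]; ring
    refine ⟨t, ht0, ?_⟩
    by_cases hall : ∀ i, a i ≤ k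
    · funext i; exact hcoord i (hall i)
    · push Not at hall
      obtain ⟨i, hi⟩ := hall
      rcases h.weight_le hk i with h4 | ⟨hd, hi1, hone⟩
      · omega
      obtain ⟨γ, hγ, hvar⟩ := h.cone hd hi1
      have hoff : ∀ l, l ≠ i → y l = scale a t x l := fun l hl =>
        hcoord l (by rw [hone l hl]; exact hk1)
      have h5 := eval_congr_of_notMem_vars hvar hoff
      simp only [map_sub, map_mul, eval_C, eval_X, hfy, eval_scale h.homogeneous, hfx,
        mul_zero, zero_sub, neg_inj] at h5
      funext l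
      by_cases hli : l = i
      · subst hli; exact mul_left_cancel₀ hγ h5
      · exact hoff l hli

/-! ### Separation of tangent vectors -/

lemma IsSmoothHypersurface.key_tangents (h : IsSmoothHypersurface a d f)
    (hk : d ≤ k + ∑ l, (a l - 1)) {x v : Fin N → ℂ} (hx : x ≠ 0)
    (hfx : eval x f = 0) (hfv : diffAt f x v = 0)
    (hv : ∀ g : MvPolynomial (Fin N) ℂ, IsWeightedHomogeneous a g k → diffAt g x v = 0) :
    v = 0 := by
  have hk1 := h.one_le hk
  have hkC : (k : ℂ) ≠ 0 := by exact_mod_cast (by omega : k ≠ 0)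
  by_cases h1 : ∀ l, x l ≠ 0 → a l ≠ 1
  · obtain ⟨i, j, hij, hxi, hxj, hi, hj⟩ := h.exists_two hx hfx h1
    -- coordinates outside the support of `x`
    have hout : ∀ l, x l = 0 → v l = 0 := by
      intro l hxl
      have hli : l ≠ i := by rintro rfl; exact hxi hxl
      have hlj : l ≠ j := by rintro rfl; exact hxj hxl
      have hfrob := (h.frobenius hk hij).2.1 hi l hli hlj
      obtain ⟨α, β, hab⟩ := exists_rep (h.coprime hij) (m := k - a l) (by omega)
      have m1 := hv _ (isWH_three a i j l (α := α) (β := β) (by omega))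
      rw [diffAt_mul, diffAt_X] at m1
      simp only [map_mul, map_pow, eval_X, hxl, zero_mul, add_zero] at m1
      rcases mul_eq_zero.mp m1 with h3 | h3
      · exact h3
      · exact absurd h3 (mul_ne_zero (pow_ne_zero _ hxi) (pow_ne_zero _ hxj))
    have hin : ∀ i j : Fin N, i ≠ j → x i ≠ 0 → x j ≠ 0 → v i = 0 := by
      intro i j hij hxi hxj
      set w : ℂ := v i / x i with hw
      set u : ℂ := v j / x j with hu
      have evi : v i = w * x i := by rw [hw]; field_simp
      have evj : v j = u * x j := by rw [hu]; field_simp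
      have hmono : ∀ α β : ℕ, α * a i + β * a j = k → (α : ℂ) * w + β * u = 0 := by
        intro α β hab
        have m1 := hv _ (isWH_two a i j hab)
        rw [diffAt_mul, diffAt_X_pow i α x v w evi, diffAt_X_pow j β x v u evj] at m1
        simp only [map_pow, eval_X] at m1
        have h3 : x i ^ α * x j ^ β ≠ 0 := mul_ne_zero (pow_ne_zero _ hxi) (pow_ne_zero _ hxj)
        apply mul_left_cancel₀ h3
        rw [mul_zero, ← m1]; ring
      obtain ⟨α, β, hab, hprop⟩ : ∃ α β : ℕ, α * a i + β * a j = k ∧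
          (a j : ℂ) * w = a i * u := by
        rcases (h.frobenius hk hij).2.2 with hbig | ⟨hd, hone⟩
        · obtain ⟨α, β, hab⟩ := exists_rep (h.coprime hij) (m := k - a i * a j) (by omega)
          have e1 : (α + a j) * a i + β * a j = k := by
            have : (α + a j) * a i + β * a j = (α * a i + β * a j) + a i * a j := by ring
            omega
          have e2 : α * a i + (β + a i) * a j = k := by
            have : α * a i + (β + a i) * a j = (α * a i + β * a j) + a i * a j := by ring
            omega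
          refine ⟨_, _, e1, ?_⟩
          have n1 := hmono _ _ e1
          have n2 := hmono _ _ e2
          push_cast at n1 n2
          linear_combination n1 - n2
        · obtain ⟨α, β, hab⟩ := exists_rep (h.coprime hij) (h.frobenius hk hij).1
          refine ⟨α, β, hab, ?_⟩
          obtain ⟨A, B, hA, hB, hAB⟩ := h.line hij (h1 i hxi) (h1 j hxj) hd
          have hxl : ∀ l ∈ {l | l ≠ i ∧ l ≠ j}, x l = 0 := by
            intro l hl
            by_contra hne
            exact h1 l hne (hone l hl.1 hl.2)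
          have hvl : ∀ l ∈ {l | l ≠ i ∧ l ≠ j}, v l = 0 := fun l hl => hout l (hxl l hl)
          obtain ⟨ex, ev⟩ := span_X_vanish _ hAB hxl hvl
          rw [diffAt_sub, hfv, diffAt_add, diffAt_C_mul, diffAt_C_mul,
            diffAt_X_pow i (a j) x v w evi, diffAt_X_pow j (a i) x v u evj, zero_sub,
            neg_eq_zero] at ev
          simp only [map_sub, map_add, map_mul, map_pow, eval_C, eval_X, hfx, zero_sub,
            neg_eq_zero] at ex
          have e1 : A * x i ^ a j = -(B * x j ^ a i) := eq_neg_of_add_eq_zero_left ex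
          have h3 : A * x i ^ a j ≠ 0 := mul_ne_zero hA (pow_ne_zero _ hxi)
          apply mul_left_cancel₀ h3
          have e2 : A * x i ^ a j * (a j * w) + B * x j ^ a i * (a i * u) = 0 := by
            rw [← ev]; ring
          have e3 : B * x j ^ a i = -(A * x i ^ a j) := by rw [e1]; ring
          rw [e3] at e2
          linear_combination e2
      have n0 := hmono α β hab
      have hkw : (k : ℂ) * w = 0 := by
        have hkc : (k : ℂ) = α * a i + β * a j := by rw [← hab]; push_cast; ring
        rw [hkc]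
        linear_combination (a i : ℂ) * n0 + (β : ℂ) * hprop
      rcases mul_eq_zero.mp hkw with h3 | h3
      · exact absurd h3 hkC
      · rw [evi, h3, zero_mul]
    funext l
    by_cases hxl : x l = 0
    · exact hout l hxl
    · by_cases hli : l = i
      · subst hli; exact hin l j hij hxi hxj
      · exact hin l i hli hxl hxi
  · push Not at h1
    obtain ⟨l, hxl, hl⟩ := h1
    have hvl : v l = 0 := by
      have m0 := hv (X l ^ k) (by simpa [hl] using isWH_X_pow a l k)
      have evl : v l = (v l / x l) * x l := by field_simp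
      rw [diffAt_X_pow l k x v _ evl] at m0
      rcases mul_eq_zero.mp m0 with h3 | h3
      · rcases mul_eq_zero.mp h3 with h4 | h4
        · exact absurd h4 hkC
        · rw [evl, h4, zero_mul]
      · exact absurd h3 (pow_ne_zero _ hxl)
    have hcoord : ∀ i, a i ≤ k → v i = 0 := by
      intro i hik
      have m1 := hv _ (isWH_two a l i (α := k - a i) (β := 1) (by rw [hl]; omega))
      rw [pow_one, diffAt_mul, diffAt_X, diffAt_X_pow l (k - a i) x v 0 (by rw [hvl, zero_mul])]
        at m1
      simp only [map_pow, eval_X, mul_zero, zero_mul, zero_add] at m1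
      rcases mul_eq_zero.mp m1 with h3 | h3
      · exact absurd h3 (pow_ne_zero _ hxl)
      · exact h3
    by_cases hall : ∀ i, a i ≤ k
    · funext i; exact hcoord i (hall i)
    · push Not at hall
      obtain ⟨i, hi⟩ := hall
      rcases h.weight_le hk i with h4 | ⟨hd, hi1, hone⟩
      · omega
      obtain ⟨γ, hγ, hvar⟩ := h.cone hd hi1
      have hoff : ∀ l, l ≠ i → v l = 0 := fun l hl => hcoord l (by rw [hone l hl]; exact hk1)
      have h5 : diffAt (f - C γ * X i) x v = 0 := by
        rw [diffAt, Finset.sum_eq_single i]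
        · rw [pderiv_eq_zero_of_notMem_vars hvar]; simp
        · intro l _ hl; rw [hoff l hl, mul_zero]
        · simp
      rw [diffAt_sub, hfv, diffAt_C_mul, diffAt_X, zero_sub, neg_eq_zero] at h5
      funext l
      by_cases hli : l = i
      · subst hli
        rcases mul_eq_zero.mp h5 with h6 | h6
        · exact absurd h6 hγ
        · exact h6
      · exact hoff l hli

/-- `O_X(k)` is very ample for every `k ≥ d - ∑ (a_i - 1)`. -/
theorem IsSmoothHypersurface.veryAmple (h : IsSmoothHypersurface a d f)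
    (hk : d ≤ k + ∑ l, (a l - 1)) : VeryAmple a f k where
  base_point_free := fun _ hx hfx => h.base_point_free hk hx hfx
  separates_points := by
    intro x y hx hy hfx hfy hne
    by_contra hcon
    push Not at hcon
    obtain ⟨g0, hg0, hg0x⟩ := h.base_point_free hk hx hfx
    obtain ⟨g1, hg1, hg1y⟩ := h.base_point_free hk hy hfy
    have hlin : ∀ g : MvPolynomial (Fin N) ℂ, IsWeightedHomogeneous a g k →
        eval y g = (eval y g0 / eval x g0) * eval x g := by
      intro g hg
      have h1 := hcon (g - C (eval x g / eval x g0) * g0) (hg.sub (hg0.C_mul _))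
        (by simp only [map_sub, map_mul, eval_C]; field_simp; ring)
      simp only [map_sub, map_mul, eval_C] at h1
      rw [sub_eq_zero.mp h1]
      field_simp
    have hc : eval y g0 / eval x g0 ≠ 0 := by
      intro h0
      have := hlin g1 hg1
      rw [h0, zero_mul] at this
      exact hg1y this
    obtain ⟨t, ht, hyt⟩ := h.key_points hk hx hy hfx hfy hc hlin
    exact hne t ht hyt
  separates_tangents := by
    intro x v hx hfx hfv hne
    by_contra hcon
    push Not at hcon
    have hk1 := h.one_le hk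
    have hkC : (k : ℂ) ≠ 0 := by exact_mod_cast (by omega : k ≠ 0)
    obtain ⟨g0, hg0, hg0x⟩ := h.base_point_free hk hx hfx
    set c : ℂ := diffAt g0 x v / eval x g0 with hc
    have hlin : ∀ g : MvPolynomial (Fin N) ℂ, IsWeightedHomogeneous a g k →
        diffAt g x v = c * eval x g := by
      intro g hg
      have h1 := hcon (g - C (eval x g / eval x g0) * g0) (hg.sub (hg0.C_mul _))
        (by simp only [map_sub, map_mul, eval_C]; field_simp; ring)
      rw [diffAt_sub, diffAt_C_mul] at h1
      rw [sub_eq_zero.mp h1, hc]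
      field_simp
    set E : Fin N → ℂ := fun i => a i * x i with hE
    have h0 : v - (c / k) • E = 0 := by
      apply h.key_tangents hk hx hfx
      · rw [diffAt_sub_right, diffAt_smul_right, hE, diffAt_euler h.homogeneous, hfv, hfx]
        ring
      · intro g hg
        rw [diffAt_sub_right, diffAt_smul_right, hE, diffAt_euler hg, hlin g hg]
        field_simp
        ring
    apply hne (c / k)
    rw [sub_eq_zero.mp h0]
    rfl

end forms

/-- **Fujita's very ampleness for smooth weighted hypersurfaces.** For a smooth weighted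
hypersurface `X = {f = 0} ⊂ ℙ(a_0, …, a_{n+1})` of degree `d` and dimension `n`, and `m ≥ 1`, the
line bundle `K_X + (n+2) m` times the class of `O_X(1)`, that is `O_X(d - ∑ a_i + (n + 2) m)`, is
very ample. -/
theorem result (n : ℕ) (a : Fin (n + 2) → ℕ) (d : ℕ) (f : MvPolynomial (Fin (n + 2)) ℂ)
    (h : IsSmoothHypersurface a d f) (m : ℕ) (hm : 1 ≤ m) :
    ∃ k : ℕ, 1 ≤ k ∧ (k : ℤ) = (d : ℤ) - ∑ i, (a i : ℤ) + (n + 2) * m ∧ VeryAmple a f k := by
  have h1 := sum_pred_lt_prod a h.weight_pos Finset.univ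
  have h2 := Nat.le_of_dvd h.degree_pos (h.prod_dvd Finset.univ)
  have h3 : ∑ i, (a i : ℤ) = ((∑ i, (a i - 1) : ℕ) : ℤ) + (n + 2) := by
    push_cast
    have : ∀ i, ((a i - 1 : ℕ) : ℤ) = (a i : ℤ) - 1 := fun i => by
      have := h.weight_pos i
      omega
    simp only [this, Finset.sum_sub_distrib, Finset.sum_const, Finset.card_univ,
      Fintype.card_fin, nsmul_eq_mul, mul_one]
    push_cast
    ring
  obtain ⟨m', rfl⟩ : ∃ m', m = m' + 1 := ⟨m - 1, by omega⟩
  refine ⟨d - ∑ i, (a i - 1) + (n + 2) * m', by omega, ?_, ?_⟩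
  · rw [h3]
    push_cast [Nat.cast_sub (show ∑ i, (a i - 1) ≤ d by omega)]
    ring
  · apply h.veryAmple
    omega

end Pool.Agent.Results.MP_e09b14_ag.WeightedHypersurface
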